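import Mathlib
import Pool.Agent.Q11.TwoEnd.Final

/-!
# Two-ended regular vertex-transitive graphs are edge colourable with as many colours as the degree
-/

namespace Pool.Agent.Results.MP_ce52b8_co.TwoEndedClassOne

open SimpleGraph

universe u

/-- Every connected, two-ended, `k`-regular, vertex-transitive graph has a proper edge colouring
with `k` colours, and every colour class of it is a perfect matching. -/
theorem result {V : Type u} (G : SimpleGraph V) [G.LocallyFinite] (k : ℕ)
    (hconn : G.Connected) (hreg : G.IsRegularOfDegree k)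
    (htrans : ∀ u v : V, ∃ g : G ≃g G, g u = v) (h2 : Pool.Q11.TwoEnd.TwoEnded G) :
    ∃ c : Sym2 V → Fin k,
      (∀ e ∈ G.edgeSet, ∀ e' ∈ G.edgeSet, e ≠ e' → ∀ v : V, v ∈ e → v ∈ e' → c e ≠ c e') ∧
      (∀ (i : Fin k) (v : V), ∃! w : V, G.Adj v w ∧ c s(v, w) = i) := by
  classical
  obtain ⟨c, hc⟩ := Pool.Q11.TwoEnd.two_ended_ec G k hconn hreg htrans h2
  have hk : 0 < k := by
    obtain ⟨A, S, hH⟩ := Pool.Q11.TwoEnd.exists_half hconn h2
    have : Infinite V := Set.infinite_univ_iff.1 (hH.inf.mono (Set.subset_univ _))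
    have : Nontrivial V := inferInstance
    obtain ⟨v⟩ := hconn.nonempty
    have h3 := hconn.preconnected.degree_pos_of_nontrivial v
    rw [hreg v] at h3
    exact h3
  set f : V → V → Fin k := fun v w => if h : G.Adj v w then ⟨c v w, hc.lt v w h⟩ else ⟨0, hk⟩ with hf
  have hfs : ∀ v w, f v w = f w v := by
    intro v w
    by_cases h : G.Adj v w
    · simp only [hf, h, h.symm, dif_pos, Fin.mk.injEq]
      exact hc.symm v w h
    · have h' : ¬ G.Adj w v := fun h' => h h'.symm
      simp only [hf, h, h', dif_neg, not_false_eq_true]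
  have hfv : ∀ v w, G.Adj v w → (f v w : ℕ) = c v w := by
    intro v w h
    simp only [hf, h, dif_pos]
  have hfi : ∀ v w w', G.Adj v w → G.Adj v w' → f v w = f v w' → w = w' := by
    intro v w w' h h' he
    apply hc.inj v w w' h h'
    rw [← hfv v w h, ← hfv v w' h', he]
  refine ⟨Sym2.lift ⟨f, hfs⟩, ?_, ?_⟩
  · intro e he e' he' hne v hv hv'
    obtain ⟨w, rfl⟩ := hv
    obtain ⟨w', rfl⟩ := hv'
    rw [Sym2.lift_mk, Sym2.lift_mk]
    intro heq
    apply hne
    rw [hfi v w w' he he' heq]
  · intro i v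
    have hinj : Set.InjOn (f v) (G.neighborFinset v) := by
      intro w hw w' hw' he
      rw [Finset.mem_coe, mem_neighborFinset] at hw hw'
      exact hfi v w w' hw hw' he
    have hcard : ((G.neighborFinset v).image (f v)).card = Fintype.card (Fin k) := by
      rw [Finset.card_image_of_injOn hinj, Fintype.card_fin, card_neighborFinset_eq_degree, hreg v]
    have huniv := (Finset.card_eq_iff_eq_univ _).1 hcard
    have hi : i ∈ (G.neighborFinset v).image (f v) := by rw [huniv]; exact Finset.mem_univ i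
    obtain ⟨w, hw, hwi⟩ := Finset.mem_image.1 hi
    rw [mem_neighborFinset] at hw
    refine ⟨w, ⟨hw, ?_⟩, ?_⟩
    · rw [Sym2.lift_mk]; exact hwi
    · rintro w' ⟨hw', hi'⟩
      rw [Sym2.lift_mk] at hi'
      exact hfi v w' w hw' hw (hi'.trans hwi.symm)

end Pool.Agent.Results.MP_ce52b8_co.TwoEndedClassOne
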